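import Pool.Agent.H718R2.K4
import Pool.Agent.H718R2.K6d
import Pool.Agent.H718R2.K7

/-!
# The `C^r` closing lemma fails on every noncompact manifold of dimension `≥ 3`, for all `r ≥ 2`

`V n` is `ℝⁿ`, `DiffM n M r` is `Diff^r(M)`, `strongTop n M r` is the strong (Whitney) `C^r` topology of
`Diff^r(M)`, `IsRec f x` says that `x` is recurrent (`m ↦ f^m(x)` is not a homeomorphism of `ℤ` onto its
image), `IsPer g x` says that `x` is periodic, `Closing n M r` is the statement of the closing lemma
(question Q1) for `M` and `r` (see `Pool/Agent/H718R2/G0.lean`).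
-/

open scoped Manifold ContDiff Topology

namespace Pool.Agent.Results.MP_1e8d1a_an.ClosingNoncompact

open Pool.Agent.H718R2.G

/-- A `C^∞` diffeomorphism as an element of `Diff^r(M)`. -/
def ofTop {n : ℕ} {M : Type*} [TopologicalSpace M] [ChartedSpace (V n) M] (f : DiffM n M ⊤) (r : ℕ∞) :
    DiffM n M r where
  toEquiv := f.toEquiv
  contMDiff_toFun := f.contMDiff_toFun.of_le (WithTop.coe_le_coe.mpr le_top)
  contMDiff_invFun := f.contMDiff_invFun.of_le (WithTop.coe_le_coe.mpr le_top)

/-- Let `M` be a smooth manifold (Hausdorff, second countable, without boundary) of dimension `n ≥ 3`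
with a noncompact connected component (for example `M` connected and noncompact).  There are a `C^∞`
diffeomorphism `f` of `M`, a recurrent point `x` of `f` and a neighbourhood `N` of `x` such that for
every `r ≥ 2`, `r = ∞` included, `f` has an open neighbourhood `U` in `Diff^r(M)` with the strong
topology such that no `g ∈ U` has a periodic point in `N`; in particular `x` is not periodic for any
`g ∈ U`, and the `C^r` closing lemma is false on `M`. -/
theorem result (n : ℕ) (hn : 3 ≤ n) (M : Type*) [TopologicalSpace M] [T2Space M]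
    [SecondCountableTopology M] [ChartedSpace (V n) M] [IsManifold (𝓡 n) ∞ M] (p : M)
    (hp : ¬ IsCompact (connectedComponent p)) :
    (∃ (f : DiffM n M ⊤) (x : M), IsRec f.toHomeomorph x ∧
      (∀ W ∈ 𝓝 x, ∃ k : ℕ, 1 ≤ k ∧ f^[k] x ∈ W) ∧
      ∃ N ∈ 𝓝 x, ∀ r : ℕ∞, 2 ≤ r →
        ∃ U : Set (DiffM n M r), IsOpen[strongTop n M r] U ∧ ofTop f r ∈ U ∧
          ∀ g ∈ U, ∀ y ∈ N, ¬ IsPer g y) ∧
    ∀ r : ℕ∞, 2 ≤ r → ¬ Closing n M r := by
  have : NeZero n := ⟨by omega⟩
  obtain ⟨f, x, hrec, hrec', N, hN, h⟩ := not_closing_of_halfSpace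
    (exists_halfSpaceChart (n := n) hp) (Pool.Agent.H718R2.nonClosing n hn)
  refine ⟨⟨f, x, hrec, hrec', N, hN, fun r hr => h r hr (ofTop f r) (fun y => rfl)⟩, ?_⟩
  intro r hr hcl
  obtain ⟨U, hU, hfU, hg⟩ := h r hr (ofTop f r) (fun y => rfl)
  obtain ⟨g, hgU, hper⟩ := hcl (ofTop f r) x hrec U hU hfU
  exact hg g hgU x (mem_of_mem_nhds hN) hper

end Pool.Agent.Results.MP_1e8d1a_an.ClosingNoncompact
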