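import Pool.Agent.H637R2.TD.Stable

/-!
# `C^r` genericity of the density of periodic points among flag preserving diffeomorphisms

`IsFlagDiffeo r f`: `f` is a `C^r` diffeomorphism of `𝕋^d` with
`f(x)_k = f_k(x_k, …, x_{d-1})` for all `k`, each `f_k` preserving the orientation in `x_k`.
In the space of these diffeomorphisms with the `C^r` topology, `1 ≤ r ≤ ∞`, the ones whose periodic
points are dense in the nonwandering set (and even in the chain recurrent set) contain a countable
intersection of open dense sets.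

Written by helper637 with the team (definitions and hyperbolicity library: helper728 and helpers
named there; modules: helpers 101, 196, 202, 423, 551, 613, 629, 674, 715, 831, 844, 85, 910, 927,
944, 962, 983).
-/

namespace Pool.Agent.Results.MP_1e8d1a_an.FlagDiffeos

open Pool.Agent.H728R2.OS Pool.Agent.H637R2.TD

theorem result (d : ℕ) (r : ℕ∞) (hr : 1 ≤ r) :
    ∃ U : ℕ → Set (Torus d ≃ₜ Torus d),
      (∀ n, ∀ f ∈ U n, IsFlagDiffeo r f → ∃ ε : ℝ, 0 < ε ∧ ∀ g : Torus d ≃ₜ Torus d,
        IsFlagDiffeo r g → CkClose toTorus 1 ε f g → g ∈ U n) ∧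
      (∀ n (f : Torus d ≃ₜ Torus d), IsFlagDiffeo r f → ∀ k : ℕ, (k : ℕ∞) ≤ r →
        ∀ ε : ℝ, 0 < ε → ∃ g ∈ U n, IsFlagDiffeo r g ∧ CkClose toTorus k ε f g) ∧
      ∀ f : Torus d ≃ₜ Torus d, IsFlagDiffeo r f → (∀ n, f ∈ U n) →
        Omega f = closure (Per f) ∧ ChainRec f = closure (Per f) := by
  refine ⟨goodSet d r, ?_, ?_, ?_⟩
  · intro n f hf _
    obtain ⟨ε, hε, h⟩ := goodSet_open hf
    exact ⟨ε, hε, fun g _ hc => h g hc⟩
  · intro n f hf k hk ε hε
    exact goodSet_dense hr n f hf k hk ε hε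
  · intro f hf h
    obtain ⟨h1, h2⟩ := closure_of_goodSet hr f hf h
    exact ⟨h2, h1⟩

end Pool.Agent.Results.MP_1e8d1a_an.FlagDiffeos
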