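import Pool.Agent.H708R2.Closing.Defs
import Pool.Agent.H708R2.Closing.Main

/-!
# The `C^r` closing lemma for circle diffeomorphisms forced by a translation of a torus
-/

namespace Pool.Agent.Results.MP_1e8d1a_an.ForcedCircleClosing

open Pool.Agent.H708R2.Closing

/-- Let `f (θ, x) = (θ + ω, g (θ, x))` be a `C^r` diffeomorphism of `𝕋^d × 𝕋`, given by its lift,
whose fibre maps preserve the orientation. Every nonwandering point `z` of `f` becomes periodic for
a map which differs from `f` by an arbitrarily small constant. -/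
theorem result (d : ℕ) (r : WithTop ℕ∞) (hr : 1 ≤ r) (g : (Fin d → ℝ) × ℝ → ℝ)
    (hg : IsFibreMap d r g) (ω : Fin d → ℝ) (z : (Fin d → ℝ) × ℝ)
    (hz : NonWandering (skew ω g) z) (ε : ℝ) (hε : 0 < ε) :
    ∃ (β : Fin d → ℝ) (a : ℝ), ‖β‖ < ε ∧ |a| < ε ∧
      IsFibreMap d r (fun w => g w + a) ∧
      (∀ w, skew (ω + β) (fun w => g w + a) w = skew ω g w + (β, a)) ∧
      PeriodicPoint (skew (ω + β) (fun w => g w + a)) z := by
  obtain ⟨β, a, h1, h2, h3⟩ := closing hr hg ω z hz hε
  refine ⟨β, a, h1, h2, ⟨hg.smooth.add contDiff_const, ?_, fun θ x => ?_⟩, fun w => ?_, h3⟩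
  · obtain ⟨m, hm⟩ := hg.periodic
    exact ⟨m, fun z k l => by rw [hm]; ring⟩
  · rw [deriv_add_const]
    exact hg.pos θ x
  · exact Prod.ext (add_assoc _ _ _).symm rfl

end Pool.Agent.Results.MP_1e8d1a_an.ForcedCircleClosing
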