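import Pool.Agent.H718R2.G0
import Pool.Agent.H718R2.K6e

/-!
# Recurrence without any periodic point, robustly, on `ℝⁿ`, `n ≥ 3`
-/

open scoped Manifold ContDiff Topology

namespace Pool.Agent.Results.MP_1e8d1a_an.NoPeriodicRn

open Pool.Agent.H718R2.G

/-- On `ℝⁿ`, `n ≥ 3`, there are a `C^∞` diffeomorphism `f` for which `0` is recurrent and a positive
continuous function `ε` such that no `C²` map `g` with `‖D^i g - D^i f‖ < ε` (`i ≤ 2`) has any periodic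
point. -/
theorem result (n : ℕ) (hn : 3 ≤ n) :
    ∃ (f : V n ≃ₜ V n) (ε : V n → ℝ), ContDiff ℝ ∞ f ∧ ContDiff ℝ ∞ f.symm ∧
      IsRec f 0 ∧ (∀ δ : ℝ, 0 < δ → ∃ k : ℕ, 1 ≤ k ∧ ‖f^[k] (0 : V n)‖ < δ) ∧
      Continuous ε ∧ (∀ v, 0 < ε v) ∧ ∀ g : V n → V n, ContDiff ℝ 2 g →
        (∀ (v : V n) (i : ℕ), i ≤ 2 →
          ‖iteratedFDeriv ℝ i g v - iteratedFDeriv ℝ i (f : V n → V n) v‖ < ε v) →
        ∀ k : ℕ, 1 ≤ k → ∀ v, g^[k] v ≠ v := by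
  obtain ⟨f, ε, h1, h2, h3, h4, h5, h6⟩ := Pool.Agent.H718R2.noper n hn
  refine ⟨f, ε, h1, h2, ?_, h3, h4, h5, h6⟩
  intro hemb
  obtain ⟨W, hW, hW'⟩ := hemb.isInducing.isOpen_iff.mp (isOpen_discrete ({0} : Set ℤ))
  have h0 : (0 : V n) ∈ W := by
    have : (0 : ℤ) ∈ (fun m : ℤ => (f ^ m) (0 : V n)) ⁻¹' W := by rw [hW']; rfl
    simpa using this
  obtain ⟨δ, hδ, h7⟩ := Metric.isOpen_iff.1 hW 0 h0
  obtain ⟨k, hk1, hk2⟩ := h3 δ hδ
  have hpow : ∀ (k : ℕ) (x : V n), (f ^ k) x = (f : V n → V n)^[k] x := by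
    intro k
    induction k with
    | zero => intro x; simp
    | succ k ih => intro x; rw [pow_succ, Homeomorph.mul_apply, ih, Function.iterate_succ_apply]
  have h8 : (k : ℤ) ∈ (fun m : ℤ => (f ^ m) (0 : V n)) ⁻¹' W := by
    change (f ^ (k : ℤ)) (0 : V n) ∈ W
    rw [zpow_natCast, hpow]
    apply h7
    rw [mem_ball_zero_iff]
    exact hk2
  rw [hW'] at h8
  have : (k : ℤ) = 0 := h8
  omega

end Pool.Agent.Results.MP_1e8d1a_an.NoPeriodicRn
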